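import Mathlib

/-!
# The carpenter lemma (MP_a34d76_pr)

For `0 ≤ q i ≤ 1` with `∑ q i = N` there is an `N × n` complex matrix with orthonormal rows
whose squared column norms are the `q i`.
-/

set_option autoImplicit false

namespace Pool.Agent.Lib.MP_a34d76_pr.Join

open Matrix

/-- the numbers `q i` are the squared column norms of a matrix with orthonormal rows -/
def IsColNorms {n : ℕ} (N : ℕ) (q : Fin n → ℝ) : Prop :=
  ∃ A : Matrix (Fin N) (Fin n) ℂ, A * A.conjTranspose = 1 ∧ ∀ i, ∑ j, ‖A j i‖ ^ 2 = q i

theorem sum_eq_of_pair {n : ℕ} {M : Type*} [AddCommGroup M] {f g : Fin n → M} {i j : Fin n}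
    (hij : i ≠ j) (h1 : f i + f j = g i + g j) (h2 : ∀ l, l ≠ i → l ≠ j → f l = g l) :
    ∑ l, f l = ∑ l, g l := by
  have key : ∀ h : Fin n → M, ∑ l, h l
      = h i + h j + ∑ l ∈ (Finset.univ.erase i).erase j, h l := by
    intro h
    have hj : j ∈ Finset.univ.erase i := by simp [hij.symm]
    rw [← Finset.add_sum_erase _ h (Finset.mem_univ i), ← Finset.add_sum_erase _ h hj]
    abel
  rw [key f, key g, h1]
  congr 1
  refine Finset.sum_congr rfl fun l hl => ?_
  simp only [Finset.mem_erase, Finset.mem_univ, and_true] at hl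
  exact h2 l hl.2 hl.1

theorem rot_norm (c s : ℝ) (h : c ^ 2 + s ^ 2 = 1) (x y : ℂ) :
    ‖(c : ℂ) * x + s * y‖ ^ 2 + ‖-(s : ℂ) * x + c * y‖ ^ 2 = ‖x‖ ^ 2 + ‖y‖ ^ 2 := by
  simp only [Complex.sq_norm, Complex.normSq_apply, Complex.add_re, Complex.add_im,
    Complex.mul_re, Complex.mul_im, Complex.neg_re, Complex.neg_im, Complex.ofReal_re,
    Complex.ofReal_im]
  linear_combination (x.re ^ 2 + x.im ^ 2 + y.re ^ 2 + y.im ^ 2) * h

theorem IsColNorms.rotate {n N : ℕ} {q : Fin n → ℝ} (hq : IsColNorms N q) {i j : Fin n}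
    (hij : i ≠ j) {t : ℝ} (ht : t ∈ Set.uIcc (q i) (q j)) :
    IsColNorms N (fun l => if l = i then t else if l = j then q i + q j - t else q l) := by
  obtain ⟨A, hA, hc⟩ := hq
  have hcont : Continuous fun θ : ℝ =>
      ∑ k, ‖((Real.cos θ : ℝ) : ℂ) * A k i + ((Real.sin θ : ℝ) : ℂ) * A k j‖ ^ 2 := by
    refine continuous_finsetSum _ fun k _ => ?_
    have h1 : Continuous fun θ : ℝ => ((Real.cos θ : ℝ) : ℂ) :=
      Complex.continuous_ofReal.comp Real.continuous_cos
    have h2 : Continuous fun θ : ℝ => ((Real.sin θ : ℝ) : ℂ) :=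
      Complex.continuous_ofReal.comp Real.continuous_sin
    exact (((h1.mul continuous_const).add (h2.mul continuous_const)).norm).pow 2
  have hivt := intermediate_value_uIcc (a := (0 : ℝ)) (b := Real.pi / 2) hcont.continuousOn
  have h0 : ∑ k, ‖((Real.cos 0 : ℝ) : ℂ) * A k i + ((Real.sin 0 : ℝ) : ℂ) * A k j‖ ^ 2 = q i := by
    simp [hc]
  have h1 : ∑ k, ‖((Real.cos (Real.pi / 2) : ℝ) : ℂ) * A k i
      + ((Real.sin (Real.pi / 2) : ℝ) : ℂ) * A k j‖ ^ 2 = q j := by
    simp [hc]
  rw [h0, h1] at hivt
  obtain ⟨θ, -, hθ⟩ := hivt ht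
  obtain ⟨c, hcc⟩ : ∃ c, c = Real.cos θ := ⟨_, rfl⟩
  obtain ⟨s, hss⟩ : ∃ s, s = Real.sin θ := ⟨_, rfl⟩
  have hcs : c ^ 2 + s ^ 2 = 1 := by rw [hcc, hss]; exact Real.cos_sq_add_sin_sq θ
  simp only [← hcc, ← hss] at hθ
  have hcs' : (c : ℂ) ^ 2 + (s : ℂ) ^ 2 = 1 := by exact_mod_cast hcs
  refine ⟨Matrix.of fun k l => if l = i then (c : ℂ) * A k i + s * A k j
    else if l = j then -(s : ℂ) * A k i + c * A k j else A k l, ?_, ?_⟩
  · rw [← hA]
    ext k k'
    rw [Matrix.mul_apply, Matrix.mul_apply]
    refine sum_eq_of_pair hij ?_ ?_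
    · simp only [Matrix.conjTranspose_apply, Matrix.of_apply, if_true, hij.symm, if_false,
        star_add, star_mul', star_neg, RCLike.star_def, Complex.conj_ofReal]
      linear_combination (A k i * (starRingEnd ℂ) (A k' i)
        + A k j * (starRingEnd ℂ) (A k' j)) * hcs'
    · intro l hli hlj
      simp only [Matrix.conjTranspose_apply, Matrix.of_apply, hli, hlj, if_false]
  · intro l
    by_cases hli : l = i
    · subst hli
      simpa using hθ
    · by_cases hlj : l = j
      · subst hlj
        have h2 : ∑ k, ‖(c : ℂ) * A k i + s * A k l‖ ^ 2 + ∑ k, ‖-(s : ℂ) * A k i + c * A k l‖ ^ 2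
            = q i + q l := by
          rw [← hc i, ← hc l, ← Finset.sum_add_distrib, ← Finset.sum_add_distrib]
          exact Finset.sum_congr rfl fun k _ => rot_norm c s hcs _ _
        simp only [Matrix.of_apply, hli, if_false, if_true]
        linarith
      · simp only [Matrix.of_apply, hli, hlj, if_false]
        exact hc l

theorem isColNorms_of_zero_one {n N : ℕ} {q : Fin n → ℝ} (h : ∀ i, q i = 0 ∨ q i = 1)
    (hs : ∑ i, q i = N) : IsColNorms N q := by
  classical
  have hcard : (Finset.univ.filter fun i => q i = 1).card = N := by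
    have h1 : ∑ i, q i = ∑ i, if q i = 1 then (1 : ℝ) else 0 := by
      refine Finset.sum_congr rfl fun i _ => ?_
      rcases h i with h0 | h0 <;> simp [h0]
    rw [hs, Finset.sum_boole] at h1
    exact_mod_cast h1.symm
  let e := Finset.orderEmbOfFin _ hcard
  have hemem : ∀ j, q (e j) = 1 := by
    intro j
    have := Finset.orderEmbOfFin_mem _ hcard j
    rw [Finset.mem_filter] at this
    exact this.2
  refine ⟨Matrix.of fun j i => if e j = i then 1 else 0, ?_, ?_⟩
  · ext j j'
    rw [Matrix.mul_apply]
    simp only [Matrix.conjTranspose_apply, Matrix.one_apply, Matrix.of_apply]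
    rw [Finset.sum_eq_single (e j)]
    · by_cases hj : j = j'
      · subst hj; simp
      · have : e j' ≠ e j := fun h' => hj (e.injective h').symm
        simp [hj, this]
    · intro b _ hb
      simp [hb.symm]
    · intro hb
      exact absurd (Finset.mem_univ _) hb
  · intro i
    rcases h i with h0 | h0
    · rw [h0]
      refine Finset.sum_eq_zero fun j _ => ?_
      have : e j ≠ i := by
        intro h'
        have := hemem j
        rw [h', h0] at this
        exact zero_ne_one this
      simp [this]
    · rw [h0]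
      have hi : i ∈ Finset.univ.filter fun i => q i = 1 := by simp [h0]
      have hr := Finset.range_orderEmbOfFin _ hcard
      have : i ∈ Set.range e := by
        change i ∈ Set.range (Finset.orderEmbOfFin _ hcard)
        rw [hr]
        exact_mod_cast hi
      obtain ⟨j, hj⟩ := this
      rw [Finset.sum_eq_single j]
      · simp [hj]
      · intro b _ hb
        have : e b ≠ i := fun h' => hb (e.injective (h'.trans hj.symm))
        simp [this]
      · intro hb
        exact absurd (Finset.mem_univ _) hb

theorem isColNorms_aux (N : ℕ) (m : ℕ) : ∀ {n : ℕ} (q : Fin n → ℝ), (∀ i, 0 ≤ q i) →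
    (∀ i, q i ≤ 1) → ∑ i, q i = N →
    (Finset.univ.filter fun i => q i ≠ 0 ∧ q i ≠ 1).card ≤ m → IsColNorms N q := by
  classical
  induction m with
  | zero =>
    intro n q h0 h1 hs hm
    refine isColNorms_of_zero_one (fun i => ?_) hs
    by_contra hcon
    push Not at hcon
    have : i ∈ (Finset.univ.filter fun i => q i ≠ 0 ∧ q i ≠ 1) := by
      simpa using hcon
    have := Finset.card_pos.2 ⟨i, this⟩
    omega
  | succ m ih =>
    intro n q h0 h1 hs hm
    by_cases hall : ∀ i, q i = 0 ∨ q i = 1
    · exact isColNorms_of_zero_one hall hs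
    push Not at hall
    obtain ⟨i, hi0, hi1⟩ := hall
    have hex : ∃ j, j ≠ i ∧ q j ≠ 0 ∧ q j ≠ 1 := by
      by_contra hcon
      push Not at hcon
      have h2 : ∑ j ∈ Finset.univ.erase i, q j
          = ((Finset.univ.erase i).filter fun j => q j = 1).card := by
        rw [← Finset.sum_boole]
        refine Finset.sum_congr rfl fun j hj => ?_
        have hji := Finset.ne_of_mem_erase hj
        by_cases hz : q j = 0
        · simp [hz]
        · simp [hcon j hji hz]
      have h3 := Finset.add_sum_erase Finset.univ q (Finset.mem_univ i)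
      rw [h2, hs] at h3
      obtain ⟨k, hk⟩ : ∃ k, k = ((Finset.univ.erase i).filter fun j => q j = 1).card := ⟨_, rfl⟩
      rw [← hk] at h3
      have h4 : 0 < q i := lt_of_le_of_ne (h0 i) (Ne.symm hi0)
      have h5 : q i < 1 := lt_of_le_of_ne (h1 i) hi1
      have h6 : (k : ℝ) < N := by linarith
      have h7 : (N : ℝ) < k + 1 := by linarith
      have h6' : k < N := by exact_mod_cast h6
      have h7' : N < k + 1 := by exact_mod_cast h7
      omega
    obtain ⟨j, hji, hj0, hj1⟩ := hex
    -- the vector with the mass of i and j concentrated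
    have main : ∀ a b : ℝ, (a = 0 ∨ a = 1) → 0 ≤ b → b ≤ 1 → a + b = q i + q j →
        q i ∈ Set.uIcc a b → IsColNorms N q := by
      intro a b ha hb0 hb1 hab hmem
      obtain ⟨q', hq'⟩ : ∃ q' : Fin n → ℝ,
        q' = fun l => if l = i then a else if l = j then b else q l := ⟨_, rfl⟩
      have hq'i : q' i = a := by simp [hq']
      have hq'j : q' j = b := by simp [hq', hji]
      have hq'l : ∀ l, l ≠ i → l ≠ j → q' l = q l := by
        intro l h1 h2; simp [hq', h1, h2]
      have hok : IsColNorms N q' := by
        refine ih q' ?_ ?_ ?_ ?_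
        · intro l
          by_cases hl : l = i
          · rw [hl, hq'i]; rcases ha with h | h <;> rw [h]; exact zero_le_one
          · by_cases hl2 : l = j
            · rw [hl2, hq'j]; exact hb0
            · rw [hq'l l hl hl2]; exact h0 l
        · intro l
          by_cases hl : l = i
          · rw [hl, hq'i]; rcases ha with h | h <;> rw [h]; exact zero_le_one
          · by_cases hl2 : l = j
            · rw [hl2, hq'j]; exact hb1
            · rw [hq'l l hl hl2]; exact h1 l
        · rw [← hs]
          refine sum_eq_of_pair hji.symm ?_ hq'l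
          rw [hq'i, hq'j, hab]
        · have hsub : (Finset.univ.filter fun l => q' l ≠ 0 ∧ q' l ≠ 1)
              ⊆ (Finset.univ.filter fun l => q l ≠ 0 ∧ q l ≠ 1).erase i := by
            intro l hl
            rw [Finset.mem_filter] at hl
            rw [Finset.mem_erase, Finset.mem_filter]
            have hli : l ≠ i := by
              intro h
              rw [h, hq'i] at hl
              rcases ha with h | h
              · exact hl.2.1 h
              · exact hl.2.2 h
            refine ⟨hli, Finset.mem_univ _, ?_⟩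
            by_cases hlj : l = j
            · rw [hlj]; exact ⟨hj0, hj1⟩
            · rw [← hq'l l hli hlj]; exact hl.2
          have hi : i ∈ (Finset.univ.filter fun l => q l ≠ 0 ∧ q l ≠ 1) := by
            simp [hi0, hi1]
          have h2 := Finset.card_le_card hsub
          rw [Finset.card_erase_of_mem hi] at h2
          omega
      have hr := hok.rotate hji.symm (t := q i) (by rw [hq'i, hq'j]; exact hmem)
      convert hr using 1
      funext l
      by_cases hl : l = i
      · simp [hl]
      · by_cases hl2 : l = j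
        · simp only [hl2, hji, if_false, if_true, hq'i, hq'j, hab]
          ring
        · simp only [hl, hl2, if_false]
          exact (hq'l l hl hl2).symm
    rcases le_total (q i + q j) 1 with hle | hle
    · refine main 0 (q i + q j) (Or.inl rfl) (add_nonneg (h0 i) (h0 j)) hle (by ring) ?_
      rw [Set.mem_uIcc]
      left
      exact ⟨h0 i, by linarith [h0 j]⟩
    · refine main 1 (q i + q j - 1) (Or.inr rfl) (by linarith) (by linarith [h1 i, h1 j])
        (by ring) ?_
      rw [Set.mem_uIcc]
      right
      exact ⟨by linarith [h1 j], h1 i⟩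

/-- **Carpenter lemma.** -/
theorem carpenter {n N : ℕ} (q : Fin n → ℝ) (h0 : ∀ i, 0 ≤ q i) (h1 : ∀ i, q i ≤ 1)
    (hs : ∑ i, q i = N) :
    ∃ A : Matrix (Fin N) (Fin n) ℂ, A * A.conjTranspose = 1 ∧ ∀ i, ∑ j, ‖A j i‖ ^ 2 = q i := by
  classical
  exact isColNorms_aux N _ q h0 h1 hs le_rfl

end Pool.Agent.Lib.MP_a34d76_pr.Join
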